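import Pool.Agent.Helper23_CH.Weights

/-!
Caccetta–Häggkvist (triangle case): a digraph in normal form is not spread, and it has a transitive
triangle.
-/

set_option autoImplicit false

namespace Pool.Agent.Helper69CHP

open Finset Classical
open Pool.Agent.Helper23CH

section

variable {V : Type*} [Fintype V] {E : V → V → Prop}

/-- weight of the in-neighbours -/
noncomputable def iw (E : V → V → Prop) (l : V → ℝ) (x : V) : ℝ :=
  ∑ y, if E y x then l y else 0

theorem nf_nonempty {l : V → ℝ} {e : ℝ} (h : NF E l e) : Nonempty V := by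
  by_contra hcon
  rw [not_nonempty_iff] at hcon
  have := h.tot
  rw [Finset.univ_eq_empty, Finset.sum_empty] at this
  norm_num at this

/-- A digraph in normal form is not spread. -/
theorem spread_nf {l : V → ℝ} {e : ℝ} (h : NF E l e) (X : Finset V) (hX : X.Nonempty)
    (hT : ∀ x ∈ X, ∃ k : ℕ, 0 < k ∧ ∃ y : Fin (3 * k) → V, (∀ i, y i ∈ X ∧ ¬ E (y i) x) ∧
      ∀ u, (univ.filter fun i => E (y i) u).card ≤ k) : False := by
  obtain ⟨x, hxX, hx⟩ := exists_max_image X l hX
  obtain ⟨k, hk, y, hy, hc⟩ := hT x hxX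
  have hk' : (0 : ℝ) < k := by exact_mod_cast hk
  have hsum : ∑ i, ow E l (y i) + k * l x ≤ k := by
    have h6 : (k : ℝ) * l x = ∑ u, if u = x then (k : ℝ) * l u else 0 := by simp
    have h7 : (k : ℝ) = ∑ u, (k : ℝ) * l u := by rw [← mul_sum, h.tot, mul_one]
    rw [h6]
    conv_rhs => rw [h7]
    unfold ow
    rw [sum_comm, ← sum_add_distrib]
    refine sum_le_sum fun u _ => ?_
    have hu := (h.pos u).le
    by_cases a1 : u = x
    · subst a1
      rw [if_pos rfl]
      have h8 : ∑ i, (if E (y i) u then l u else 0) = 0 :=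
        sum_eq_zero fun i _ => if_neg (hy i).2
      rw [h8, zero_add]
    · rw [if_neg a1, add_zero, ← sum_filter, sum_const, nsmul_eq_mul]
      have h8 : ((univ.filter fun i => E (y i) u).card : ℝ) ≤ k := by exact_mod_cast hc u
      exact mul_le_mul_of_nonneg_right h8 hu
  have hlow : (3 * k : ℝ) * ((1 - l x) / 3 + e) ≤ ∑ i, ow E l (y i) := by
    have h8 : (3 * k : ℝ) * ((1 - l x) / 3 + e) = ∑ _i : Fin (3 * k), ((1 - l x) / 3 + e) := by
      rw [sum_const, card_univ, Fintype.card_fin, nsmul_eq_mul]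
      push_cast
      ring
    rw [h8]
    refine sum_le_sum fun i _ => ?_
    rw [h.eq]
    have := hx (y i) (hy i).1
    linarith
  have := h.epos
  nlinarith

theorem sum_ow (l : V → ℝ) (f : V → ℝ) :
    ∑ x, l x * (f x * ow E l x) = ∑ x, ∑ y, if E x y then l x * l y * f x else 0 := by
  refine sum_congr rfl fun x _ => ?_
  unfold ow
  rw [mul_sum, mul_sum]
  refine sum_congr rfl fun y _ => ?_
  by_cases h : E x y
  · rw [if_pos h, if_pos h]
    ring
  · rw [if_neg h, if_neg h]
    ring

theorem sum_iw (l : V → ℝ) (f : V → ℝ) :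
    ∑ x, l x * (f x * iw E l x) = ∑ x, ∑ y, if E x y then l x * l y * f y else 0 := by
  rw [sum_comm]
  refine sum_congr rfl fun x _ => ?_
  unfold iw
  rw [mul_sum, mul_sum]
  refine sum_congr rfl fun y _ => ?_
  by_cases h : E y x
  · rw [if_pos h, if_pos h]
    ring
  · rw [if_neg h, if_neg h]
    ring

/-- A digraph in normal form has a transitive triangle. -/
theorem notri_nf {l : V → ℝ} {e : ℝ} (hE : CF E) (h : NF E l e)
    (hn : ∀ x y z, E x y → E y z → ¬ E x z) : False := by
  have hpos : ∀ x, 0 ≤ l x := fun x => (h.pos x).le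
  -- degrees
  obtain ⟨D, hD⟩ : ∃ D : V → ℝ, ∀ x, D x = ow E l x + iw E l x := ⟨_, fun _ => rfl⟩
  -- adjacent vertices have disjoint neighbourhoods
  have hadj : ∀ x y, E x y → D x + D y ≤ 1 := by
    intro x y hxy
    rw [hD, hD, ← h.tot]
    unfold ow iw
    rw [← sum_add_distrib, ← sum_add_distrib, ← sum_add_distrib]
    refine sum_le_sum fun u _ => ?_
    have hu := hpos u
    by_cases a1 : E x u
    · have b1 : ¬ E u x := fun a => hE.asym _ _ a1 a
      have b2 : ¬ E y u := fun a => hn x y u hxy a a1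
      have b3 : ¬ E u y := fun a => hn x u y a1 a hxy
      simp [a1, b1, b2, b3]
    · by_cases a2 : E u x
      · have b2 : ¬ E y u := fun a => hE.c3 _ _ _ hxy a a2
        have b3 : ¬ E u y := fun a => hn u x y a2 hxy a
        simp [a1, a2, b2, b3]
      · by_cases a3 : E y u
        · have b3 : ¬ E u y := fun a => hE.asym _ _ a3 a
          simp [a1, a2, a3, b3]
        · by_cases a4 : E u y
          · simp [a1, a2, a3, a4]
          · simp [a1, a2, a3, a4, hu]
  obtain ⟨T, hT⟩ : ∃ T : ℝ, T = ∑ x, l x * ow E l x := ⟨_, rfl⟩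
  have hT' : T = ∑ x, ∑ y, if E x y then l x * l y else 0 := by
    rw [hT]
    have := sum_ow (E := E) l (fun _ => 1)
    simpa using this
  have hTi : ∑ x, l x * iw E l x = T := by
    rw [hT']
    have := sum_iw (E := E) l (fun _ => 1)
    simpa using this
  have hq : ∑ x, l x * l x = 1 - 3 * T + 3 * e := by
    have h1 : T = ∑ x, ((1 / 3 + e) * l x - 1 / 3 * (l x * l x)) := by
      rw [hT]
      refine sum_congr rfl fun x _ => ?_
      rw [h.eq]
      ring
    rw [sum_sub_distrib, ← mul_sum, ← mul_sum, h.tot] at h1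
    linarith
  have hDl : ∑ x, l x * D x = 2 * T := by
    have h1 : ∀ x, l x * D x = l x * ow E l x + l x * iw E l x := by
      intro x
      rw [hD]
      ring
    simp only [h1]
    rw [sum_add_distrib, hTi, ← hT]
    ring
  -- (i)
  have hD2 : ∑ x, l x * (D x * D x) ≤ T := by
    have h1 : ∀ x, l x * (D x * D x) = l x * (D x * ow E l x) + l x * (D x * iw E l x) := by
      intro x
      nth_rewrite 2 [hD]
      ring
    simp only [h1]
    rw [sum_add_distrib, sum_ow, sum_iw, ← sum_add_distrib, hT']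
    refine sum_le_sum fun x _ => ?_
    rw [← sum_add_distrib]
    refine sum_le_sum fun y _ => ?_
    by_cases hxy : E x y
    · rw [if_pos hxy, if_pos hxy, if_pos hxy, ← mul_add]
      have h2 := hadj x y hxy
      have h3 : 0 ≤ l x * l y := mul_nonneg (hpos x) (hpos y)
      nlinarith
    · rw [if_neg hxy, if_neg hxy, if_neg hxy, add_zero]
  have hT4 : T ≤ 1 / 4 := by
    have h1 : 0 ≤ ∑ x, l x * ((D x - 2 * T) * (D x - 2 * T)) :=
      sum_nonneg fun x _ => mul_nonneg (hpos x) (mul_self_nonneg _)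
    have h2 : ∑ x, l x * ((D x - 2 * T) * (D x - 2 * T)) =
        ∑ x, l x * (D x * D x) - 4 * T * ∑ x, l x * D x + 4 * T * T * ∑ x, l x := by
      rw [mul_sum, mul_sum, ← sum_sub_distrib, ← sum_add_distrib]
      refine sum_congr rfl fun x _ => ?_
      ring
    rw [h2, hDl, h.tot] at h1
    have h3 : 0 ≤ T := by
      rw [hT']
      refine sum_nonneg fun x _ => sum_nonneg fun y _ => ?_
      split_ifs
      · exact mul_nonneg (hpos x) (hpos y)
      · exact le_rfl
    by_contra h4
    rw [not_le] at h4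
    nlinarith
  -- (ii)
  obtain ⟨g, hg⟩ : ∃ g : V → ℝ, ∀ v, g v = l v - 3 / 4 * (1 - D v) + 1 / 8 := ⟨_, fun _ => rfl⟩
  obtain ⟨v, -, hv⟩ := exists_max_image (univ : Finset V) g (by
    obtain ⟨v⟩ := nf_nonempty h
    exact ⟨v, mem_univ v⟩)
  obtain ⟨u, hvu⟩ := h.ne v
  have hiw : l v ≤ iw E l u := by
    have h6 : l v = ∑ z, if z = v then l z else 0 := by simp
    rw [h6]
    unfold iw
    refine sum_le_sum fun z _ => ?_
    have hz := hpos z
    by_cases a1 : z = v
    · subst a1
      simp [hvu]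
    · rw [if_neg a1]
      split_ifs
      · exact hz
      · exact le_rfl
  have hG : g v ≤ -(3 * e / 2) := by
    have h1 := hv u (mem_univ u)
    have h2 := hadj v u hvu
    have h3 := h.eq u
    have h4 := hD u
    have h5 := hg u
    have h6 := hg v
    linarith
  -- (iii)
  have hl : ∀ x, l x ≤ 5 / 8 - 3 / 4 * D x - 3 * e / 2 := by
    intro x
    have h1 := hv x (mem_univ x)
    have h2 := hg x
    linarith
  have hfin : ∑ x, l x * l x ≤ 5 / 8 - 3 / 4 * (2 * T) - 3 * e / 2 := by
    calc ∑ x, l x * l x ≤ ∑ x, l x * (5 / 8 - 3 / 4 * D x - 3 * e / 2) :=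
          sum_le_sum fun x _ => mul_le_mul_of_nonneg_left (hl x) (hpos x)
      _ = (5 / 8 - 3 * e / 2) * ∑ x, l x - 3 / 4 * ∑ x, l x * D x := by
          rw [mul_sum, mul_sum, ← sum_sub_distrib]
          refine sum_congr rfl fun x _ => ?_
          ring
      _ = _ := by
          rw [h.tot, hDl]
          ring
  have := h.epos
  linarith

end

end Pool.Agent.Helper69CHP
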